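import Pool.Agent.H26.LQ.Defs

/-!
# Module L20 of the board lq_modules

Square integrals of the negative part of `log |g|` over the curves `u ↦ zz c δ u`, for a bounded
analytic function `g` in the right half plane with a polynomial lower bound near zero.
-/

set_option autoImplicit false

open MeasureTheory Set Filter Topology Metric

namespace Pool.Agent.H85.LQ

open Pool.Agent.H26.LQ Pool.Agent.H26.ZQ Pool.Agent.H26.MQ Pool.Agent.H26.ML

lemma l20_zx_pos {c δ : ℝ} (hc : 0 < c) (hδ : 0 < δ) (u : ℝ) : 0 < zx c δ u := by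
  unfold zx
  positivity

lemma l20_zx_cont {c δ : ℝ} (hc : 0 < c) : Continuous (zx c δ) := by
  unfold zx
  refine Continuous.div (by fun_prop) (by fun_prop) fun u => ?_
  have : 0 < c ^ 2 + δ ^ 2 * u ^ 2 := by positivity
  exact this.ne'

lemma l20_zy_cont {c δ : ℝ} (hc : 0 < c) : Continuous (zy c δ) := by
  unfold zy
  refine Continuous.div (by fun_prop) (by fun_prop) fun u => ?_
  have : 0 < c ^ 2 + δ ^ 2 * u ^ 2 := by positivity
  exact this.ne'

lemma l20_zz_cont {c δ : ℝ} (hc : 0 < c) : Continuous (zz c δ) := by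
  unfold zz
  exact (Complex.continuous_ofReal.comp (l20_zx_cont hc)).add
    ((Complex.continuous_ofReal.comp (l20_zy_cont hc)).mul continuous_const)

lemma l20_zz_re (c δ u : ℝ) : (zz c δ u).re = zx c δ u := by simp [zz]

lemma l20_zz_im (c δ u : ℝ) : (zz c δ u).im = zy c δ u := by simp [zz]

lemma l20_norm_sq {c δ : ℝ} (hc : 0 < c) (u : ℝ) :
    ‖zz c δ u‖ ^ 2 * (c ^ 2 + δ ^ 2 * u ^ 2) = c ^ 2 * (c ^ 2 * δ ^ 2 + u ^ 2) := by
  have hA : 0 < c ^ 2 + δ ^ 2 * u ^ 2 := by positivity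
  have h1 : ‖zz c δ u‖ ^ 2 = (zx c δ u) ^ 2 + (zy c δ u) ^ 2 := by
    rw [← Complex.normSq_eq_norm_sq, Complex.normSq_apply, l20_zz_re, l20_zz_im]
    ring
  rw [h1]
  unfold zx zy
  field_simp
  ring

/-- The points with `‖zz c δ u‖ ≤ W`. -/
lemma l20_small {c δ W u : ℝ} (hc : 0 < c) (hW : 0 < W) (hδ : 0 < δ) (hδ2 : δ * (8 * W) ≤ c)
    (h : ‖zz c δ u‖ ≤ W) : |u| ≤ 2 * W ∧ 16 * (δ ^ 2 * u ^ 2) ≤ c ^ 2 := by
  have hA : 0 < c ^ 2 + δ ^ 2 * u ^ 2 := by positivity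
  have h1 := l20_norm_sq (δ := δ) hc u
  have h2 : ‖zz c δ u‖ ^ 2 ≤ W ^ 2 := pow_le_pow_left₀ (norm_nonneg _) h 2
  have h3 : c ^ 2 * (c ^ 2 * δ ^ 2 + u ^ 2) ≤ W ^ 2 * (c ^ 2 + δ ^ 2 * u ^ 2) := by
    rw [← h1]
    exact mul_le_mul_of_nonneg_right h2 hA.le
  have h4 : (δ * (8 * W)) ^ 2 ≤ c ^ 2 := pow_le_pow_left₀ (by positivity) hδ2 2
  have h5 : δ ^ 2 * W ^ 2 ≤ c ^ 2 / 64 := by nlinarith
  have h6 : c ^ 2 * u ^ 2 ≤ W ^ 2 * c ^ 2 + c ^ 2 / 64 * u ^ 2 := by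
    have h7 : δ ^ 2 * W ^ 2 * u ^ 2 ≤ c ^ 2 / 64 * u ^ 2 :=
      mul_le_mul_of_nonneg_right h5 (sq_nonneg u)
    have h8 : 0 ≤ c ^ 2 * (c ^ 2 * δ ^ 2) := by positivity
    nlinarith
  have hc2 : 0 < c ^ 2 := by positivity
  have h9 : u ^ 2 ≤ 64 / 63 * W ^ 2 := by
    have : c ^ 2 * u ^ 2 ≤ c ^ 2 * (64 / 63 * W ^ 2) := by nlinarith
    exact le_of_mul_le_mul_left this hc2
  constructor
  · apply abs_le_of_sq_le_sq _ (by positivity)
    nlinarith [sq_nonneg W]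
  · have h10 : δ ^ 2 * u ^ 2 ≤ δ ^ 2 * (64 / 63 * W ^ 2) :=
      mul_le_mul_of_nonneg_left h9 (sq_nonneg δ)
    nlinarith

/-- The imaginary part separates the points. -/
lemma l20_sep {c d u v : ℝ} (hc : 0 < c) (hd : 0 < d) (hd1 : d ≤ 1 / 2)
    (h1 : 16 * (d ^ 2 * u ^ 2) ≤ c ^ 2) (h2 : 16 * (d ^ 2 * v ^ 2) ≤ c ^ 2) :
    |u - v| / 2 ≤ |zy c d u - zy c d v| := by
  have hA : 0 < c ^ 2 + d ^ 2 * u ^ 2 := by positivity
  have hB : 0 < c ^ 2 + d ^ 2 * v ^ 2 := by positivity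
  have hc2 : 0 < c ^ 2 := by positivity
  have hd3 : d ^ 2 ≤ 1 / 4 := by nlinarith
  have huv : |d ^ 2 * (u * v)| ≤ c ^ 2 / 16 := by
    rw [abs_le]
    constructor
    · nlinarith [sq_nonneg (d * u + d * v)]
    · nlinarith [sq_nonneg (d * u - d * v)]
  have huv1 := (abs_le.1 huv).1
  have huv2 := (abs_le.1 huv).2
  set k : ℝ := c ^ 2 * (1 - d ^ 2) * (c ^ 2 - d ^ 2 * (u * v)) /
    ((c ^ 2 + d ^ 2 * u ^ 2) * (c ^ 2 + d ^ 2 * v ^ 2)) with hk
  have hz : zy c d u - zy c d v = (u - v) * k := by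
    rw [hk]
    unfold zy
    field_simp
    ring
  have hk1 : 1 / 2 ≤ k := by
    rw [hk, le_div_iff₀ (by positivity)]
    have hAB : (c ^ 2 + d ^ 2 * u ^ 2) * (c ^ 2 + d ^ 2 * v ^ 2) ≤
        (17 / 16 * c ^ 2) * (17 / 16 * c ^ 2) :=
      mul_le_mul (by linarith) (by linarith) hB.le (by positivity)
    have h3 : c ^ 2 * (3 / 4) * (15 / 16 * c ^ 2) ≤
        c ^ 2 * (1 - d ^ 2) * (c ^ 2 - d ^ 2 * (u * v)) :=
      mul_le_mul (mul_le_mul_of_nonneg_left (by linarith) hc2.le) (by linarith) (by positivity)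
        (mul_nonneg hc2.le (by linarith))
    nlinarith
  have hk0 : 0 ≤ k := by linarith
  rw [hz, abs_mul, abs_of_nonneg hk0]
  nlinarith [abs_nonneg (u - v)]

theorem pf_l20 (hSQ : T_SQ) : T_L20 := by
  intro E c W K N ω g hE hc hW hK hg h1 h2
  obtain ⟨C₀, hC₀, hsq⟩ := hSQ
  set M : ℕ := ⌈4 * W⌉₊ + 1 with hM
  set Q : ℝ := c⁻¹ * (C₀ * (K + N) ^ 2) with hQ
  have hQ0 : 0 ≤ Q := by positivity
  refine ⟨Real.pi * K ^ 2 + M * Q, min (1 / 2) (c / (8 * W)), lt_min (by norm_num) (by positivity), ?_⟩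
  intro δ hδ hδ'
  have hδ1 : δ ≤ 1 / 2 := hδ'.trans (min_le_left _ _)
  have hδ2 : δ * (8 * W) ≤ c := by
    have := hδ'.trans (min_le_right _ _)
    rwa [le_div_iff₀ (by positivity)] at this
  set S : Set ℝ := {u | ‖zz c δ u‖ ≤ W} with hS
  have hSc : IsClosed S := isClosed_le (l20_zz_cont hc).norm continuous_const
  set F : ℝ → ℝ := fun u => Real.log ‖g (zz c δ u)‖ with hF
  have hre : ∀ u, 0 < (zz c δ u).re := fun u => by
    rw [l20_zz_re]
    exact l20_zx_pos hc hδ u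
  have hgc : Continuous fun u => g (zz c δ u) := by
    rw [continuous_iff_continuousAt]
    intro u
    exact ContinuousAt.comp (hg.an _ (hre u)).continuousAt (l20_zz_cont hc).continuousAt
  have hFm : Measurable F := Real.measurable_log.comp hgc.norm.measurable
  -- outside `S`
  have hout : ∀ u, u ∉ S → (max (-F u) 0) ^ 2 ≤ K ^ 2 := by
    intro u hu
    have h3 := h2 (zz c δ u) (hre u).le (not_le.1 hu).le
    exact pow_le_pow_left₀ (le_max_right _ _) (max_le (by simp only [hF]; linarith) hK) 2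
  -- inside `S`
  have hin : ∀ k : Fin M, ∫⁻ u in S ∩ Icc (-(2 * W) + (k : ℕ)) (-(2 * W) + (k : ℕ) + 1),
      ENNReal.ofReal (poi c u * (max (-F u) 0) ^ 2) ≤ ENNReal.ofReal Q := by
    intro k
    have h3 := hsq (-(2 * W) + (k : ℕ)) K N ω (zz c δ) F S hK (l20_zz_cont hc) hSc hFm
      (by
        intro u hu v hv
        rw [l20_zz_im, l20_zz_im]
        exact l20_sep hc hδ hδ1 (l20_small hc hW hδ hδ2 hu.1).2 (l20_small hc hW hδ hδ2 hv.1).2)
      (fun u hu hFu => h1 (zz c δ u) (hre u).le hu.1 hFu)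
    have hm : MeasurableSet (S ∩ Icc (-(2 * W) + ((k : ℕ) : ℝ)) (-(2 * W) + (k : ℕ) + 1)) :=
      hSc.measurableSet.inter measurableSet_Icc
    have hc0 : 0 ≤ c⁻¹ := by positivity
    calc ∫⁻ u in S ∩ Icc (-(2 * W) + (k : ℕ)) (-(2 * W) + (k : ℕ) + 1),
          ENNReal.ofReal (poi c u * (max (-F u) 0) ^ 2)
        ≤ ∫⁻ u in S ∩ Icc (-(2 * W) + (k : ℕ)) (-(2 * W) + (k : ℕ) + 1), ENNReal.ofReal c⁻¹ *
              ENNReal.ofReal ((max (-F u) 0) ^ 2) := by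
            refine setLIntegral_mono' hm fun u _ => ?_
            rw [← ENNReal.ofReal_mul hc0]
            refine ENNReal.ofReal_le_ofReal (mul_le_mul_of_nonneg_right ?_ (sq_nonneg _))
            unfold poi
            rw [inv_eq_one_div, div_le_div_iff₀ (by positivity) hc]
            nlinarith [sq_nonneg u]
      _ = ENNReal.ofReal c⁻¹ * ∫⁻ u in S ∩ Icc (-(2 * W) + (k : ℕ)) (-(2 * W) + (k : ℕ) + 1),
              ENNReal.ofReal ((max (-F u) 0) ^ 2) := by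
            rw [lintegral_const_mul' _ _ ENNReal.ofReal_ne_top]
      _ ≤ ENNReal.ofReal c⁻¹ * ENNReal.ofReal (C₀ * (K + N) ^ 2) := by
            gcongr
      _ = ENNReal.ofReal Q := by
            rw [hQ, ENNReal.ofReal_mul hc0]
  -- assembly
  have hcov : S ⊆ ⋃ k : Fin M, S ∩ Icc (-(2 * W) + (k : ℕ)) (-(2 * W) + (k : ℕ) + 1) := by
    intro u hu
    rw [mem_iUnion]
    have h3 := (abs_le.1 (l20_small hc hW hδ hδ2 hu).1)
    have h4 : 0 ≤ u + 2 * W := by linarith [h3.1]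
    have h5 : ⌊u + 2 * W⌋₊ < M := by
      have h6 : ⌊u + 2 * W⌋₊ ≤ ⌈4 * W⌉₊ := by
        rw [← Nat.cast_le (α := ℝ)]
        exact (Nat.floor_le h4).trans ((by linarith [h3.2] : u + 2 * W ≤ 4 * W).trans
          (Nat.le_ceil _))
      omega
    refine ⟨⟨⌊u + 2 * W⌋₊, h5⟩, hu, ?_, ?_⟩
    · have := Nat.floor_le h4
      simp only
      linarith
    · have := Nat.lt_floor_add_one (u + 2 * W)
      simp only
      linarith
  have hpm : Measurable fun u => ENNReal.ofReal (poi c u * (max (-F u) 0) ^ 2) := by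
    have := (poi_continuous hc).measurable
    fun_prop
  rw [← lintegral_add_compl _ hSc.measurableSet]
  have hA : ∫⁻ u in S, ENNReal.ofReal (poi c u * (max (-F u) 0) ^ 2) ≤
      ENNReal.ofReal (M * Q) := by
    calc ∫⁻ u in S, ENNReal.ofReal (poi c u * (max (-F u) 0) ^ 2)
        ≤ ∫⁻ u in ⋃ k : Fin M, S ∩ Icc (-(2 * W) + (k : ℕ)) (-(2 * W) + (k : ℕ) + 1),
            ENNReal.ofReal (poi c u * (max (-F u) 0) ^ 2) := lintegral_mono_set hcov
      _ ≤ ∑' k : Fin M, ∫⁻ u in S ∩ Icc (-(2 * W) + (k : ℕ)) (-(2 * W) + (k : ℕ) + 1),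
            ENNReal.ofReal (poi c u * (max (-F u) 0) ^ 2) := lintegral_iUnion_le _ _
      _ ≤ ∑' _ : Fin M, ENNReal.ofReal Q := ENNReal.tsum_le_tsum hin
      _ = ENNReal.ofReal (M * Q) := by
        have hMM : ENNReal.ofReal (M * Q) = (M : ENNReal) * ENNReal.ofReal Q := by
          rw [ENNReal.ofReal_mul (Nat.cast_nonneg M), ENNReal.ofReal_natCast]
        rw [tsum_fintype, Finset.sum_const, Finset.card_univ, Fintype.card_fin, nsmul_eq_mul, hMM]
  have hB : ∫⁻ u in Sᶜ, ENNReal.ofReal (poi c u * (max (-F u) 0) ^ 2) ≤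
      ENNReal.ofReal (Real.pi * K ^ 2) := by
    calc ∫⁻ u in Sᶜ, ENNReal.ofReal (poi c u * (max (-F u) 0) ^ 2)
        ≤ ∫⁻ u in Sᶜ, ENNReal.ofReal (poi c u * K ^ 2) := by
          refine setLIntegral_mono' hSc.measurableSet.compl fun u hu => ?_
          exact ENNReal.ofReal_le_ofReal
            (mul_le_mul_of_nonneg_left (hout u hu) (poi_pos hc u).le)
      _ ≤ ∫⁻ u, ENNReal.ofReal (poi c u * K ^ 2) := setLIntegral_le_lintegral _ _
      _ = ENNReal.ofReal (∫ u, poi c u * K ^ 2) := by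
          rw [ofReal_integral_eq_lintegral_ofReal ((poi_integrable hc).mul_const _)]
          exact Eventually.of_forall fun u => mul_nonneg (poi_pos hc u).le (sq_nonneg _)
      _ = ENNReal.ofReal (Real.pi * K ^ 2) := by
          rw [integral_mul_const, poi_integral hc]
  calc _ ≤ ENNReal.ofReal (M * Q) + ENNReal.ofReal (Real.pi * K ^ 2) := add_le_add hA hB
    _ = ENNReal.ofReal (Real.pi * K ^ 2 + M * Q) := by
        rw [← ENNReal.ofReal_add (by positivity) (by positivity), add_comm]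

end Pool.Agent.H85.LQ
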