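import Pool.Agent.H26.LQ.Defs
import Pool.Agent.H26.MQ.Circle

/-!
# Module LIM of the board lq_modules

The limit `δ → 0` for averages of `log |g|` over half circles.
-/

set_option autoImplicit false

open MeasureTheory Set Filter Topology Metric

namespace Pool.Agent.H85.LQ

open Pool.Agent.H26.LQ Pool.Agent.H26.ZQ Pool.Agent.H26.MQ Pool.Agent.H26.ML

/-- The domain of integration. -/
def LD : Set (ℝ × ℝ) := Ioo (0 : ℝ) (1 / 4) ×ˢ Ioo (-(Real.pi / 2)) (Real.pi / 2)

lemma LD_meas : MeasurableSet LD := measurableSet_Ioo.prod measurableSet_Ioo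

lemma cm_re (r θ : ℝ) : (circleMap 0 r θ).re = r * Real.cos θ := by
  rw [circleMap, zero_add, Complex.re_ofReal_mul, Complex.exp_ofReal_mul_I_re]

lemma cm_im (r θ : ℝ) : (circleMap 0 r θ).im = r * Real.sin θ := by
  rw [circleMap, zero_add, Complex.im_ofReal_mul, Complex.exp_ofReal_mul_I_im]

lemma cm_cont : Continuous fun p : ℝ × ℝ => circleMap 0 p.1 p.2 := by
  unfold circleMap
  fun_prop

lemma ph_re {p : ℝ × ℝ} (hp : p ∈ LD) {δ : ℝ} (hδ : 0 ≤ δ) :
    0 < (circleMap 0 p.1 p.2 + 2 * (δ : ℂ)).re := by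
  have h1 : 0 < Real.cos p.2 := Real.cos_pos_of_mem_Ioo hp.2
  have h2 : (2 * (δ : ℂ)).re = 2 * δ := by simp
  rw [Complex.add_re, cm_re, h2]
  have := mul_pos hp.1.1 h1
  linarith

lemma cm_injOn : InjOn (fun p : ℝ × ℝ => circleMap 0 p.1 p.2) LD := by
  intro p hp q hq h
  have h1 : p.1 * Real.cos p.2 = q.1 * Real.cos q.2 := by
    rw [← cm_re, ← cm_re]
    exact congrArg Complex.re h
  have h2 : p.1 * Real.sin p.2 = q.1 * Real.sin q.2 := by
    rw [← cm_im, ← cm_im]
    exact congrArg Complex.im h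
  have h3 : p.1 ^ 2 = q.1 ^ 2 := by
    have e1 : p.1 ^ 2 = (p.1 * Real.cos p.2) ^ 2 + (p.1 * Real.sin p.2) ^ 2 := by
      have := Real.sin_sq_add_cos_sq p.2
      linear_combination (-p.1 ^ 2) * this
    have e2 : q.1 ^ 2 = (q.1 * Real.cos q.2) ^ 2 + (q.1 * Real.sin q.2) ^ 2 := by
      have := Real.sin_sq_add_cos_sq q.2
      linear_combination (-q.1 ^ 2) * this
    rw [e1, e2, h1, h2]
  have hp1 := hp.1.1
  have hq1 := hq.1.1
  have h4 : p.1 = q.1 := by nlinarith
  have h5 : Real.sin p.2 = Real.sin q.2 := by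
    rw [h4] at h2
    exact mul_left_cancel₀ hq1.ne' h2
  exact Prod.ext h4 (Real.injOn_sin (Ioo_subset_Icc_self hp.2) (Ioo_subset_Icc_self hq.2) h5)

/-- Almost no point of the half disc is a zero. -/
lemma ae_ne {g : ℂ → ℂ} (hg : AnalyticOnNhd ℂ g (ball 0 (1 / 2))) (h0 : g 0 ≠ 0) :
    ∀ᵐ p ∂(volume.restrict LD), g (circleMap 0 p.1 p.2) ≠ 0 := by
  have h1 := zeros_countable (convex_closedBall (0 : ℂ) (1 / 4)) isClosed_closedBall
    (hg.mono (closedBall_subset_ball (by norm_num))) (mem_closedBall_self (by norm_num)) h0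
  have h2 : {p | p ∈ LD ∧ g (circleMap 0 p.1 p.2) = 0}.Countable := by
    refine MapsTo.countable_of_injOn (f := fun p : ℝ × ℝ => circleMap 0 p.1 p.2) ?_
      (cm_injOn.mono fun p hp => hp.1) h1
    intro p hp
    refine ⟨?_, hp.2⟩
    have h3 := hp.1.1
    rw [mem_closedBall_zero_iff, norm_circleMap_zero, abs_of_pos h3.1]
    exact h3.2.le
  have h3 := h2.measure_zero volume
  rw [ae_restrict_iff' LD_meas]
  filter_upwards [measure_eq_zero_iff_ae_notMem.mp h3] with p hp hpD h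
  exact hp ⟨hpD, h⟩

variable {E : ℝ} {g : ℂ → ℂ}

lemma lg_meas (hg : HB E g) {δ : ℝ} (hδ : 0 ≤ δ) :
    AEMeasurable (fun p : ℝ × ℝ => Real.log ‖g (circleMap 0 p.1 p.2 + 2 * (δ : ℂ))‖)
      (volume.restrict LD) := by
  have h1 : ContinuousOn (fun p : ℝ × ℝ => g (circleMap 0 p.1 p.2 + 2 * (δ : ℂ))) LD :=
    hg.an.continuousOn.comp (cm_cont.add continuous_const).continuousOn fun p hp => ph_re hp hδ
  exact Real.measurable_log.comp_aemeasurable (h1.norm.aemeasurable LD_meas)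

lemma lg_le (hE : 1 ≤ E) (hg : HB E g) {p : ℝ × ℝ} (hp : p ∈ LD) {δ : ℝ} (hδ : 0 ≤ δ) :
    Real.log ‖g (circleMap 0 p.1 p.2 + 2 * (δ : ℂ))‖ ≤ Real.log E := by
  rcases eq_or_ne (g (circleMap 0 p.1 p.2 + 2 * (δ : ℂ))) 0 with h | h
  · rw [h, norm_zero, Real.log_zero]
    exact Real.log_nonneg hE
  · exact Real.log_le_log (norm_pos_iff.2 h) (hg.bdd _ (ph_re hp hδ).le)

/-- The weighted logarithm. -/
noncomputable def lg (w : ℝ → ℝ) (g : ℂ → ℂ) (δ : ℝ) (p : ℝ × ℝ) : ℝ :=
  w p.1 * (Real.pi⁻¹ * Real.log ‖g (circleMap 0 p.1 p.2 + 2 * (δ : ℂ))‖)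

lemma lg_integrable {B C : ℝ} {w : ℝ → ℝ} (hE : 1 ≤ E) (hw : Continuous w)
    (hwB : ∀ r : ℝ, 0 ≤ r → 0 ≤ w r ∧ w r ≤ B * r) (hg : HB E g) {δ : ℝ} (hδ : 0 ≤ δ)
    (hC : ∫⁻ p in LD, ENNReal.ofReal (p.1 *
      (max (-Real.log ‖g (circleMap 0 p.1 p.2 + 2 * (δ : ℂ))‖) 0) ^ 2) ≤ ENNReal.ofReal C) :
    Integrable (lg w g δ) (volume.restrict LD) := by
  have hm := lg_meas hg hδ
  set L : ℝ × ℝ → ℝ := fun p => Real.log ‖g (circleMap 0 p.1 p.2 + 2 * (δ : ℂ))‖ with hL
  have hfin : IsFiniteMeasure (volume.restrict LD) := by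
    refine ⟨?_⟩
    rw [Measure.restrict_apply_univ]
    have : LD ⊆ Icc (0 : ℝ) (1 / 4) ×ˢ Icc (-(Real.pi / 2)) (Real.pi / 2) :=
      prod_mono Ioo_subset_Icc_self Ioo_subset_Icc_self
    exact (measure_mono this).trans_lt (isCompact_Icc.prod isCompact_Icc).measure_lt_top
  have hmS : AEMeasurable (fun p : ℝ × ℝ => p.1 * (max (-L p) 0) ^ 2) (volume.restrict LD) :=
    measurable_fst.aemeasurable.mul ((hm.neg.max aemeasurable_const).pow_const 2)
  have hS : Integrable (fun p : ℝ × ℝ => p.1 * (max (-L p) 0) ^ 2) (volume.restrict LD) := by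
    refine ⟨hmS.aestronglyMeasurable, ?_⟩
    rw [hasFiniteIntegral_iff_ofReal]
    · exact hC.trans_lt ENNReal.ofReal_lt_top
    · filter_upwards [ae_restrict_mem LD_meas] with p hp
      exact mul_nonneg hp.1.1.le (sq_nonneg _)
  have hB0 : 0 ≤ B := by
    have := hwB 1 zero_le_one
    linarith [this.1, this.2]
  have hdom : Integrable (fun p : ℝ × ℝ => B * (Real.pi⁻¹ * (Real.log E + 1)) +
      (B * Real.pi⁻¹) * (p.1 * (max (-L p) 0) ^ 2)) (volume.restrict LD) :=
    (integrable_const _).add (hS.const_mul _)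
  refine hdom.mono' ?_ ?_
  · have h1 : AEMeasurable (fun p : ℝ × ℝ => w p.1) (volume.restrict LD) :=
      (hw.measurable.comp measurable_fst).aemeasurable
    exact (h1.mul (hm.const_mul _)).aestronglyMeasurable
  · filter_upwards [ae_restrict_mem LD_meas] with p hp
    have h1 := hwB p.1 hp.1.1.le
    have h2 : L p ≤ Real.log E := lg_le hE hg hp hδ
    have hlE : 0 ≤ Real.log E := Real.log_nonneg hE
    have h3 : |L p| ≤ Real.log E + 1 + (max (-L p) 0) ^ 2 := by
      have h4 : -L p ≤ max (-L p) 0 := le_max_left _ _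
      have h5 : 0 ≤ max (-L p) 0 := le_max_right _ _
      rw [abs_le]
      constructor
      · nlinarith [sq_nonneg (max (-L p) 0 - 1)]
      · nlinarith [sq_nonneg (max (-L p) 0)]
    have hpi : 0 ≤ Real.pi⁻¹ := by positivity
    have hp1 := hp.1.1
    have hp2 := hp.1.2
    show |w p.1 * (Real.pi⁻¹ * L p)| ≤ _
    rw [abs_mul, abs_mul, abs_of_nonneg h1.1, abs_of_nonneg hpi]
    calc w p.1 * (Real.pi⁻¹ * |L p|)
        ≤ (B * p.1) * (Real.pi⁻¹ * (Real.log E + 1 + (max (-L p) 0) ^ 2)) :=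
          mul_le_mul h1.2 (mul_le_mul_of_nonneg_left h3 hpi) (by positivity) (by positivity)
      _ = p.1 * (B * (Real.pi⁻¹ * (Real.log E + 1))) +
          (B * Real.pi⁻¹) * (p.1 * (max (-L p) 0) ^ 2) := by ring
      _ ≤ _ := by
          have h6 : 0 ≤ B * (Real.pi⁻¹ * (Real.log E + 1)) := by positivity
          nlinarith

lemma lg_fubini {w : ℝ → ℝ} {δ : ℝ} (h : Integrable (lg w g δ) (volume.restrict LD)) :
    ∫ p in LD, lg w g δ p = ∫ r in (0 : ℝ)..(1 / 4), w r * (Real.pi⁻¹ *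
      ∫ θ in (-(Real.pi / 2))..(Real.pi / 2), Real.log ‖g (circleMap 0 r θ + 2 * (δ : ℂ))‖) := by
  have hpi := Real.pi_pos
  have h1 : ∫ p in LD, lg w g δ p = ∫ r in Ioo (0 : ℝ) (1 / 4),
      ∫ θ in Ioo (-(Real.pi / 2)) (Real.pi / 2), lg w g δ (r, θ) :=
    setIntegral_prod (μ := volume) (ν := volume) _ h
  rw [h1, intervalIntegral.integral_of_le (by norm_num), integral_Ioc_eq_integral_Ioo]
  refine integral_congr_ae (Eventually.of_forall fun r => ?_)
  simp only [lg]
  rw [integral_const_mul, integral_const_mul, intervalIntegral.integral_of_le (by linarith),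
    integral_Ioc_eq_integral_Ioo]

theorem pf_lim (hFLO : T_FLO) (hLA : T_LA) : T_LIM := by
  intro E V B w η g hE hw hwB hg hga h0 hη hle
  obtain ⟨C, hC⟩ := hLA g hga h0
  have hB0 : 0 ≤ B := by
    have := hwB 1 zero_le_one
    linarith [this.1, this.2]
  have hfin : IsFiniteMeasure (volume.restrict LD) := by
    refine ⟨?_⟩
    rw [Measure.restrict_apply_univ]
    have : LD ⊆ Icc (0 : ℝ) (1 / 4) ×ˢ Icc (-(Real.pi / 2)) (Real.pi / 2) :=
      prod_mono Ioo_subset_Icc_self Ioo_subset_Icc_self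
    exact (measure_mono this).trans_lt (isCompact_Icc.prod isCompact_Icc).measure_lt_top
  -- the sequence
  set d : ℕ → ℝ := fun n => 1 / (16 * ((n : ℝ) + 1)) with hd
  have hd0 : ∀ n, 0 < d n := fun n => by
    simp only [hd]
    positivity
  have hd1 : ∀ n, d n ≤ 1 / 16 := fun n => by
    simp only [hd]
    apply one_div_le_one_div_of_le (by norm_num)
    have : (0 : ℝ) ≤ n := Nat.cast_nonneg n
    linarith
  have hdl : Tendsto d atTop (𝓝 0) := by
    have h1 : Tendsto (fun n : ℕ => (1 / 16 : ℝ) * (1 / ((n : ℝ) + 1))) atTop (𝓝 ((1 / 16) * 0)) :=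
      tendsto_one_div_add_atTop_nhds_zero_nat.const_mul _
    rw [mul_zero] at h1
    refine h1.congr fun n => ?_
    simp only [hd]
    field_simp
  have hdl' : Tendsto d atTop (𝓝[>] 0) :=
    tendsto_nhdsWithin_iff.2 ⟨hdl, Eventually.of_forall hd0⟩
  have hCd : ∀ n, ∫⁻ p in LD, ENNReal.ofReal (p.1 *
      (max (-Real.log ‖g (circleMap 0 p.1 p.2 + 2 * (d n : ℂ))‖) 0) ^ 2) ≤ ENNReal.ofReal C :=
    fun n => hC (d n) (hd0 n).le (hd1 n)
  have hC0 : ∫⁻ p in LD, ENNReal.ofReal (p.1 *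
      (max (-Real.log ‖g (circleMap 0 p.1 p.2 + 2 * ((0 : ℝ) : ℂ))‖) 0) ^ 2) ≤
      ENNReal.ofReal C := hC 0 le_rfl (by norm_num)
  have hin : ∀ n, Integrable (lg w g (d n)) (volume.restrict LD) := fun n =>
    lg_integrable hE hw hwB hg (hd0 n).le (hCd n)
  have hi0 : Integrable (lg w g 0) (volume.restrict LD) :=
    lg_integrable hE hw hwB hg le_rfl hC0
  have hkey : ∫ p in LD, lg w g 0 p ≤ V := by
    refine le_of_forall_pos_le_add fun ε hε => ?_
    refine hFLO (volume.restrict LD) (fun n => lg w g (d n)) (lg w g 0)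
      ((B * Real.pi⁻¹) ^ 2 * C) (V + ε) hin hi0 ?_ ?_ ?_
    · filter_upwards [ae_ne hga h0, ae_restrict_mem LD_meas] with p hp hpD
      have h1 : ContinuousAt g (circleMap 0 p.1 p.2 + 2 * ((0 : ℝ) : ℂ)) :=
        (hg.an _ (ph_re hpD le_rfl)).continuousAt
      have h2 : Tendsto (fun n => circleMap 0 p.1 p.2 + 2 * ((d n : ℝ) : ℂ)) atTop
          (𝓝 (circleMap 0 p.1 p.2 + 2 * ((0 : ℝ) : ℂ))) :=
        tendsto_const_nhds.add (((Complex.continuous_ofReal.tendsto 0).comp hdl).const_mul _)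
      have h3 : ‖g (circleMap 0 p.1 p.2 + 2 * ((0 : ℝ) : ℂ))‖ ≠ 0 := by
        rw [Complex.ofReal_zero, mul_zero, add_zero]
        exact norm_ne_zero_iff.2 hp
      have h4 := ((h1.tendsto.comp h2).norm.log h3)
      exact (h4.const_mul Real.pi⁻¹).const_mul (w p.1)
    · refine Eventually.of_forall fun n => ?_
      calc ∫⁻ p in LD, ENNReal.ofReal ((max (-lg w g (d n) p) 0) ^ 2)
          ≤ ∫⁻ p in LD, ENNReal.ofReal ((B * Real.pi⁻¹) ^ 2) * ENNReal.ofReal (p.1 *
            (max (-Real.log ‖g (circleMap 0 p.1 p.2 + 2 * (d n : ℂ))‖) 0) ^ 2) := by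
            refine setLIntegral_mono' LD_meas fun p hp => ?_
            rw [← ENNReal.ofReal_mul (by positivity)]
            apply ENNReal.ofReal_le_ofReal
            have h1 := hwB p.1 hp.1.1.le
            have hp1 := hp.1.1
            have hp2 := hp.1.2
            set l : ℝ := Real.log ‖g (circleMap 0 p.1 p.2 + 2 * (d n : ℂ))‖ with hl
            have h2 : max (-lg w g (d n) p) 0 ≤ (B * Real.pi⁻¹ * p.1) * max (-l) 0 := by
              have h3 : -lg w g (d n) p = (w p.1 * Real.pi⁻¹) * (-l) := by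
                simp only [lg, hl]
                ring
              rw [h3]
              have h4 : 0 ≤ max (-l) 0 := le_max_right _ _
              refine max_le ?_ (by positivity)
              calc (w p.1 * Real.pi⁻¹) * (-l) ≤ (w p.1 * Real.pi⁻¹) * max (-l) 0 :=
                    mul_le_mul_of_nonneg_left (le_max_left _ _)
                      (mul_nonneg h1.1 (by positivity))
                _ ≤ (B * Real.pi⁻¹ * p.1) * max (-l) 0 := by
                    refine mul_le_mul_of_nonneg_right ?_ h4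
                    have h5 := mul_le_mul_of_nonneg_right h1.2
                      (by positivity : (0 : ℝ) ≤ Real.pi⁻¹)
                    linarith
            calc (max (-lg w g (d n) p) 0) ^ 2 ≤ ((B * Real.pi⁻¹ * p.1) * max (-l) 0) ^ 2 :=
                  pow_le_pow_left₀ (le_max_right _ _) h2 2
              _ = (B * Real.pi⁻¹) ^ 2 * (p.1 * (p.1 * (max (-l) 0) ^ 2)) := by ring
              _ ≤ (B * Real.pi⁻¹) ^ 2 * (p.1 * (max (-l) 0) ^ 2) := by
                  refine mul_le_mul_of_nonneg_left ?_ (sq_nonneg _)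
                  have h6 : 0 ≤ p.1 * (max (-l) 0) ^ 2 := by positivity
                  nlinarith
        _ = ENNReal.ofReal ((B * Real.pi⁻¹) ^ 2) * ∫⁻ p in LD, ENNReal.ofReal (p.1 *
            (max (-Real.log ‖g (circleMap 0 p.1 p.2 + 2 * (d n : ℂ))‖) 0) ^ 2) := by
            rw [lintegral_const_mul' _ _ ENNReal.ofReal_ne_top]
        _ ≤ ENNReal.ofReal ((B * Real.pi⁻¹) ^ 2) * ENNReal.ofReal C := by
            gcongr
            exact hCd n
        _ = ENNReal.ofReal ((B * Real.pi⁻¹) ^ 2 * C) := by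
            rw [← ENNReal.ofReal_mul (by positivity)]
    · filter_upwards [(hη.comp hdl').eventually (gt_mem_nhds hε)] with n hn
      rw [lg_fubini (hin n)]
      exact (hle (d n) (hd0 n) (hd1 n)).trans (by
        have : η (d n) < ε := hn
        linarith)
  rw [lg_fubini hi0] at hkey
  simpa using hkey

end Pool.Agent.H85.LQ
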