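import Pool.Agent.H54.LQ.Targets

/-!
# Row CLB of the board lpq_modules: the stabilizers at representatives are closed relations
-/

set_option autoImplicit false

open Set Filter Topology Pool.Agent.H93.CP Pool.Agent.H7.LP Pool.Agent.H7.LQ Pool.Agent.H54.LQ

namespace Pool.Agent.H85.LQ

private theorem clb_main (h1 : Pool.Agent.H7.LP.T_LAB) (h3 : Pool.Agent.H7.LP.T_CLA) {G X : Type}
    [Group G] [TopologicalSpace G] [IsTopologicalGroup G] [TopologicalSpace X] (R H : Subgroup G)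
    (hP : Piece R H) (B : Set (Set G)) (hB : TopologicalSpace.IsTopologicalBasis B)
    (c : X → ℕ → Set G)
    (hc : ∀ n : ℕ, ∀ U ∈ B, IsClosed {x | (lab R (c x) n ∩ U).Nonempty} ∧
      IsOpen {x | (lab R (c x) n ∩ U).Nonempty}) :
    IsClosed {p : X × G | p.2 ∈ H ∧ lab R (tr p.2 (c p.1)) = lab R (c p.1)} := by
  obtain ⟨l1, l2, -⟩ := h1 G
  have e1 : ∀ n, IsClosed {p : (X × X) × G |
      {a | a * p.2 ∈ lab R (c p.1.1) n} = lab R (c p.1.2) n} := fun n =>
    h3 G X X B (fun x => lab R (c x) n) (fun x => lab R (c x) n) hB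
      (fun x => l1 R _ n) (fun x => l1 R _ n) (fun U hU => hc n U hU) (fun U hU => hc n U hU)
  have e2 : IsClosed ((fun p : X × G => (((p.1, p.1), p.2) : (X × X) × G)) ⁻¹'
      ⋂ n, {p : (X × X) × G | {a | a * p.2 ∈ lab R (c p.1.1) n} = lab R (c p.1.2) n}) :=
    (isClosed_iInter e1).preimage
      ((continuous_fst.prodMk continuous_fst).prodMk continuous_snd)
  have hHc : IsClosed {p : X × G | p.2 ∈ H} :=
    (Subgroup.isClosed_of_isOpen H hP.op).preimage continuous_snd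
  have e3 : {p : X × G | p.2 ∈ H ∧ lab R (tr p.2 (c p.1)) = lab R (c p.1)} =
      {p : X × G | p.2 ∈ H} ∩ ((fun p : X × G => (((p.1, p.1), p.2) : (X × X) × G)) ⁻¹'
      ⋂ n, {p : (X × X) × G | {a | a * p.2 ∈ lab R (c p.1.1) n} = lab R (c p.1.2) n}) := by
    ext p
    refine and_congr_right fun hh => ?_
    rw [l2 R H _ hP p.2 hh, Set.mem_preimage, Set.mem_iInter]
    exact funext_iff
  rw [e3]
  exact hHc.inter e2

theorem pf_CLB (h1 : Pool.Agent.H7.LP.T_LAB) (h2 : Pool.Agent.H7.LP.T_RTP)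
    (h3 : Pool.Agent.H7.LP.T_CLA) : T_CLB := by
  intro G X _ _ _ _ _ _ M _ Y R H g hP
  obtain ⟨t, B, ht1, ht2, hB, hc⟩ := h2 G X M Y R g
  refine ⟨t, ht1, ht2, fun i => ?_⟩
  have := @clb_main h1 h3 G X _ _ _ t R H hP B hB (fun x => tr (g i) (Y.C x))
    (fun n U hU => hc i n U hU)
  simp only [tr_mul]
  exact this

end Pool.Agent.H85.LQ
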