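import Pool.Agent.H69.LQ.Lib

/-!
# MP_8f7db2_an, THEOREM LQ: row CB (the gaussian mass of a ball about its centre)
-/

set_option autoImplicit false

open MeasureTheory Metric Set
open scoped ENNReal
open Pool.Agent.H85.LK (E adm lam Ann)
open Pool.Agent.H69.LQ

namespace Pool.Agent.H85.LQ

theorem shiftB (N : ℕ) (o c : E N) :
    ∫ x in ball c 1, Real.exp (-‖x - o‖ ^ 2) = ∫ y in ball (c - o) 1, Real.exp (-‖y‖ ^ 2) := by
  have h := (measurePreserving_sub_right (volume : Measure (E N)) o).setIntegral_preimage_emb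
    (MeasurableEquiv.subRight o).measurableEmbedding (fun y : E N => Real.exp (-‖y‖ ^ 2))
    (ball (c - o) 1)
  have hs : (fun x : E N => x - o) ⁻¹' ball (c - o) 1 = ball c 1 := by
    ext x
    rw [mem_preimage, mem_ball, mem_ball, dist_eq_norm, dist_eq_norm, sub_sub_sub_cancel_right]
  rw [hs] at h
  exact h

theorem pf_CB : T_CB := by
  intro N ε hN hε
  obtain ⟨e, he0, he1, heε⟩ : ∃ e : ℝ, 0 < e ∧ e ≤ 1 ∧ e ≤ ε :=
    ⟨min ε 1, lt_min hε one_pos, min_le_right _ _, min_le_left _ _⟩
  have hNe : Nonempty (Fin N) := ⟨⟨0, by omega⟩⟩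
  have hcpos : 0 < Real.exp (-(1 - e / 4) ^ 2) - Real.exp (-1) := by
    rw [sub_pos]
    apply Real.exp_lt_exp.mpr
    nlinarith
  have hvpos : 0 < (volume (ball (0 : E N) (e / 4))).toReal :=
    ENNReal.toReal_pos (measure_ball_pos volume (0 : E N) (by linarith)).ne'
      measure_ball_lt_top.ne
  refine ⟨(Real.exp (-(1 - e / 4) ^ 2) - Real.exp (-1)) *
    (volume (ball (0 : E N) (e / 4))).toReal, mul_pos hcpos hvpos, ?_⟩
  intro o c hoc
  rw [shiftB N o c, shiftB N c c, sub_self]
  have ha : ε ≤ ‖c - o‖ := by rw [← norm_neg, neg_sub]; exact hoc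
  obtain ⟨a, ha'⟩ : ∃ a : E N, a = c - o := ⟨_, rfl⟩
  rw [← ha'] at ha ⊢
  have hapos : 0 < ‖a‖ := lt_of_lt_of_le hε ha
  set h : E N → ℝ := fun y => Real.exp (-‖y‖ ^ 2) - Real.exp (-1) with hh
  have hcont : Continuous (fun y : E N => Real.exp (-‖y‖ ^ 2)) := by fun_prop
  have hint : ∀ (z : E N) (r : ℝ), IntegrableOn (fun y : E N => Real.exp (-‖y‖ ^ 2)) (ball z r) :=
    fun z r => (hcont.continuousOn.integrableOn_compact (isCompact_closedBall z r)).mono_set
      ball_subset_closedBall
  have hinth : ∀ (z : E N) (r : ℝ), IntegrableOn h (ball z r) :=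
    fun z r => (hint z r).sub (integrableOn_const measure_ball_lt_top.ne)
  have hvol : volume (ball a 1) = volume (ball (0 : E N) 1) := by
    rw [EuclideanSpace.volume_ball, EuclideanSpace.volume_ball]
  have hsplit : ∀ z : E N, ∫ y in ball z 1, Real.exp (-‖y‖ ^ 2) =
      (∫ y in ball z 1, h y) + Real.exp (-1) * (volume (ball z 1)).toReal := by
    intro z
    have h1 : ∫ y in ball z 1, h y = (∫ y in ball z 1, Real.exp (-‖y‖ ^ 2)) -
        ∫ y in ball z 1, Real.exp (-1) :=
      integral_sub (hint z 1) (integrableOn_const measure_ball_lt_top.ne)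
    rw [h1, setIntegral_const, smul_eq_mul]
    unfold Measure.real
    ring
  rw [hsplit a, hsplit 0, hvol]
  have h2 : ∫ y in ball a 1, h y ≤ ∫ y in ball (0 : E N) 1 ∩ ball a 1, h y := by
    have h3 := integral_inter_add_sdiff (s := ball a 1) (t := ball (0 : E N) 1)
      measurableSet_ball (hinth a 1)
    have h4 : ∫ y in ball a 1 \ ball (0 : E N) 1, h y ≤ 0 := by
      apply setIntegral_nonpos (measurableSet_ball.diff measurableSet_ball)
      intro y hy
      have hy1 : 1 ≤ ‖y‖ := by
        have := hy.2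
        rw [mem_ball_zero_iff, not_lt] at this
        exact this
      rw [hh, sub_nonpos]
      apply Real.exp_le_exp.mpr
      nlinarith
    rw [inter_comm (ball a 1)] at h3
    linarith
  have hpos : ∀ y ∈ ball (0 : E N) 1, 0 ≤ h y := by
    intro y hy
    rw [mem_ball_zero_iff] at hy
    rw [hh, sub_nonneg]
    apply Real.exp_le_exp.mpr
    nlinarith [norm_nonneg y]
  have h5 := integral_inter_add_sdiff (s := ball (0 : E N) 1) (t := ball a 1)
    measurableSet_ball (hinth 0 1)
  obtain ⟨z, hz⟩ : ∃ z : E N, z = -(((1 - e / 2) / ‖a‖) • a) := ⟨_, rfl⟩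
  have hzn : ‖z‖ = 1 - e / 2 := by
    rw [hz, norm_neg, norm_smul, Real.norm_eq_abs, abs_of_nonneg (div_nonneg (by linarith) hapos.le),
      div_mul_cancel₀ _ hapos.ne']
  have hza : ‖z - a‖ = ‖a‖ + (1 - e / 2) := by
    have h6 : z - a = -(((1 - e / 2) / ‖a‖ + 1) • a) := by
      rw [hz, add_smul, one_smul]; abel
    have h7 : 0 ≤ (1 - e / 2) / ‖a‖ := div_nonneg (by linarith) hapos.le
    rw [h6, norm_neg, norm_smul, Real.norm_eq_abs, abs_of_nonneg (by linarith), add_mul,
      div_mul_cancel₀ _ hapos.ne', one_mul, add_comm]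
  have hK : ball z (e / 4) ⊆ ball (0 : E N) 1 \ ball a 1 := by
    intro y hy
    rw [mem_ball, dist_eq_norm] at hy
    constructor
    · rw [mem_ball_zero_iff]
      have h8 : ‖y‖ ≤ ‖y - z‖ + ‖z‖ := by
        have := norm_add_le (y - z) z
        rwa [sub_add_cancel] at this
      linarith
    · rw [mem_ball, dist_eq_norm, not_lt]
      have h8 : ‖z - a‖ ≤ ‖z - y‖ + ‖y - a‖ := by
        have := norm_add_le (z - y) (y - a)
        rwa [sub_add_sub_cancel] at this
      rw [norm_sub_rev] at hy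
      linarith
  have h9 : ∫ y in ball z (e / 4), h y ≤ ∫ y in ball (0 : E N) 1 \ ball a 1, h y := by
    apply setIntegral_mono_set ((hinth 0 1).mono_set sdiff_subset)
    · rw [Filter.EventuallyLE, ae_restrict_iff' (measurableSet_ball.diff measurableSet_ball)]
      exact Filter.Eventually.of_forall fun y hy => hpos y hy.1
    · exact LE.le.eventuallyLE hK
  have h10 : (Real.exp (-(1 - e / 4) ^ 2) - Real.exp (-1)) *
      (volume (ball (0 : E N) (e / 4))).toReal ≤ ∫ y in ball z (e / 4), h y := by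
    have h11 : volume (ball (0 : E N) (e / 4)) = volume (ball z (e / 4)) := by
      rw [EuclideanSpace.volume_ball, EuclideanSpace.volume_ball]
    rw [h11]
    suffices h13 : ∀ y ∈ ball z (e / 4), Real.exp (-(1 - e / 4) ^ 2) - Real.exp (-1) ≤ h y by
      have h14 := setIntegral_ge_of_const_le measurableSet_ball measure_ball_lt_top.ne h13
        (hinth z (e / 4))
      rw [smul_eq_mul, mul_comm] at h14
      exact h14
    intro y hy
    rw [mem_ball, dist_eq_norm] at hy
    have h8 : ‖y‖ ≤ ‖y - z‖ + ‖z‖ := by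
      have := norm_add_le (y - z) z
      rwa [sub_add_cancel] at this
    rw [hh]
    apply sub_le_sub_right
    apply Real.exp_le_exp.mpr
    have h12 : ‖y‖ ≤ 1 - e / 4 := by linarith
    nlinarith [norm_nonneg y]
  linarith

end Pool.Agent.H85.LQ
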