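import Pool.Agent.H54.LQ.Targets
import Pool.Agent.H88.LP.SGC

/-!
# Row SGO of the board lpq_modules: open subsets of a piece are sigma-compact modulo `R`
-/

set_option autoImplicit false

open Set Filter Topology Pool.Agent.H93.CP Pool.Agent.H7.LP Pool.Agent.H7.LQ Pool.Agent.H54.LQ

namespace Pool.Agent.H85.LQ

theorem pf_SGO : T_SGO := by
  intro G _ _ _ _ R H U hP hU
  obtain ⟨C, hC, hCH, hcov⟩ := Pool.Agent.H88.LP.pf_SGC G R H hP
  have hV : IsOpen {c : G | ∃ r ∈ R, c * r ∈ U} := by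
    have e : {c : G | ∃ r ∈ R, c * r ∈ U} = ⋃ r ∈ R, (fun c => c * r) ⁻¹' U := by
      ext c
      simp
    rw [e]
    exact isOpen_biUnion fun r _ => hU.preimage (continuous_mul_const r)
  let _ := TopologicalSpace.upgradeIsCompletelyMetrizable G
  obtain ⟨F, hF, hFV, hUF, -⟩ := hV.exists_iUnion_isClosed
  refine ⟨fun n => C n.unpair.1 ∩ F n.unpair.2, fun l => (hC _).inter_right (hF _), ?_, ?_⟩
  · rintro l c ⟨hc, hc'⟩
    exact ⟨hCH _ c hc, hFV _ hc'⟩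
  · intro h hh hhU
    obtain ⟨l, c, hc, hr⟩ := hcov h hh
    have hcV : c ∈ {c : G | ∃ r ∈ R, c * r ∈ U} :=
      ⟨c⁻¹ * h, hr, by rw [mul_inv_cancel_left]; exact hhU⟩
    rw [← hUF] at hcV
    obtain ⟨j, hj⟩ := mem_iUnion.1 hcV
    refine ⟨Nat.pair l j, c, ?_, hr⟩
    show c ∈ C (Nat.pair l j).unpair.1 ∩ F (Nat.pair l j).unpair.2
    rw [Nat.unpair_pair]
    exact ⟨hc, hj⟩

end Pool.Agent.H85.LQ
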